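import Pool.Agent.W560.Coiso.Iso

/-!
# A convex body violating the Viterbo type bound for the coisotropic Hofer-Zehnder capacity

In `ℝ⁶` (`n = 3`) let `D = K' × T'`, where `K'` in the `q`-space is the bipyramid over an affinely
regular pentagon `K` and `T'` in the `p`-space is the prism over the pentagon `T`, the suitably
rotated and scaled `K`. Then `c_LR(D, D ∩ {p₃ = 0}) ≥ 11/5`, while `3! Vol(D⁺) < (11/5)³`.
-/

set_option autoImplicit false

open Set MeasureTheory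
open scoped Matrix ENNReal

namespace Pool.Agent.Results.MP_4c83b4_gt.Disproof

open Pool.Agent.W560.Coiso

theorem mem_q {x : Phase 3} (hx : x ∈ body facetQ facetP) :
    (x.1 0, x.1 1) ∈ pentR (1 - |x.1 2|) := by
  have h := hx.1
  have e0 := h 0; have e1 := h 1; have e2 := h 2; have e3 := h 3; have e4 := h 4
  have e5 := h 5; have e6 := h 6; have e7 := h 7; have e8 := h 8; have e9 := h 9
  simp [facetQ, dotProduct, Fin.sum_univ_succ] at e0 e1 e2 e3 e4 e5 e6 e7 e8 e9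
  rcases abs_cases (x.1 2) with ⟨ha, _⟩ | ⟨ha, _⟩ <;> rw [ha] <;>
    refine ⟨?_, ?_, ?_, ?_, ?_⟩ <;> simp only <;> linarith

theorem mem_p {x : Phase 3} (hx : x ∈ body facetQ facetP) :
    InT (x.2 0) (x.2 1) ∧ x.2 2 ≤ 11 / 10 ∧ -(11 / 10) ≤ x.2 2 := by
  have h := hx.2
  have e0 := h 0; have e1 := h 1; have e2 := h 2; have e3 := h 3; have e4 := h 4
  have e5 := h 5; have e6 := h 6
  simp [facetP, dotProduct, Fin.sum_univ_succ] at e0 e1 e2 e3 e4 e5 e6
  refine ⟨⟨?_, ?_, ?_, ?_, ?_⟩, ?_, ?_⟩ <;> linarith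

theorem body_subset_Icc : body facetQ facetP ⊆
    Icc ((fun _ => -5, fun _ => -5) : Phase 3) (fun _ => 5, fun _ => 5) := by
  intro x hx
  have hp := psi_gt
  have hp' := psi_lt
  have sq : ∀ z : ℝ, psi * (psi * z) = z - psi * z := fun z => by
    rw [← mul_assoc, psi_mul_self]; ring
  obtain ⟨x1, x2⟩ := pentR_x (mem_q hx)
  obtain ⟨f0, f1, f2, f3, f4⟩ := mem_q hx
  simp only at f0 f1 f2 f3 f4
  obtain ⟨⟨g0, g1, g2, g3, g4⟩, p2, p2'⟩ := mem_p hx
  have ha := abs_nonneg (x.1 2)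
  -- the `q` side
  have q0 : x.1 0 ≤ 1 := by linarith
  have q0' : -1 ≤ x.1 0 := by linarith
  have hab : |x.1 2| ≤ 1 := by linarith
  have q2 := (abs_le.1 hab).2
  have q2' := (abs_le.1 hab).1
  have q1 : x.1 1 ≤ 2 := by linarith
  have q1' : -5 ≤ x.1 1 := by
    by_contra hcon
    rw [not_le] at hcon
    nlinarith
  -- the `p` side: `(1+ψ) u + ψ v ≤ 1`, `-ψ u - (1+ψ) v ≤ 1`, ...
  have v1 : x.2 1 ≤ 5 := by
    by_contra hcon
    rw [not_le] at hcon
    nlinarith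
  have v1' : -5 ≤ x.2 1 := by
    by_contra hcon
    rw [not_le] at hcon
    nlinarith
  have u1 : x.2 0 ≤ 5 := by
    by_contra hcon
    rw [not_le] at hcon
    nlinarith
  have u1' : -5 ≤ x.2 0 := by
    by_contra hcon
    rw [not_le] at hcon
    nlinarith
  refine ⟨⟨fun i => ?_, fun i => ?_⟩, ⟨fun i => ?_, fun i => ?_⟩⟩ <;> fin_cases i <;>
    simp <;> linarith

theorem isCompact_body : IsCompact (body facetQ facetP) :=
  isCompact_Icc.of_isClosed_subset (isClosed_body facetQ facetP) body_subset_Icc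

theorem volume_upper : volume (body facetQ facetP ∩ {x : Phase 3 | 0 ≤ x.2 (Fin.last 2)}) ≤
    ENNReal.ofReal (5 / 3) * ENNReal.ofReal (11 / 10 * (5 / 2 * psi ^ 2)) := by
  have hsub : body facetQ facetP ∩ {x : Phase 3 | 0 ≤ x.2 (Fin.last 2)} ⊆
      {q : Fin 3 → ℝ | (q 0, q 1) ∈ pentR (1 - |q 2|)} ×ˢ
      {p : Fin 3 → ℝ | InT (p 0) (p 1) ∧ 0 ≤ p 2 ∧ p 2 ≤ 11 / 10} := by
    rintro x ⟨hx, hx2⟩
    exact ⟨mem_q hx, (mem_p hx).1, hx2, (mem_p hx).2.1⟩
  refine (measure_mono hsub).trans ?_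
  rw [Measure.volume_eq_prod, Measure.prod_prod]
  exact mul_le_mul' (volume_bipyramid fun q hq => hq)
    (volume_prism (by norm_num) fun p hp => hp)

/-- There is a convex body `D` in `ℝ⁶` whose interior meets `{p₃ = 0}` and for which
`c_LR(D, D ∩ {p₃ = 0}) > (3! min {Vol(D⁺), Vol(D⁻)})^{1/3}`. -/
theorem result : ∃ D : Set (Phase 3),
    IsCompact D ∧ Convex ℝ D ∧ (interior D).Nonempty ∧ (interior D ∩ hyper 2).Nonempty ∧
    (((3).factorial : ℝ≥0∞) * min (volume (D ∩ {x | 0 ≤ x.2 (Fin.last 2)}))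
      (volume (D ∩ {x | x.2 (Fin.last 2) ≤ 0}))) ^ (1 / 3 : ℝ) < cLR D := by
  refine ⟨body facetQ facetP, isCompact_body, convex_body _ _, ⟨0, zero_mem_interior _ _⟩,
    ⟨0, zero_mem_interior _ _, by simp [hyper]⟩, ?_⟩
  have hlow := le_cLR facetQ facetP isCompact_body (by norm_num) iso_facets
  refine lt_of_lt_of_le ?_ hlow
  have hv : (((3).factorial : ℝ≥0∞) * min
      (volume (body facetQ facetP ∩ {x : Phase 3 | 0 ≤ x.2 (Fin.last 2)}))
      (volume (body facetQ facetP ∩ {x : Phase 3 | x.2 (Fin.last 2) ≤ 0}))) <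
      ENNReal.ofReal ((11 / 5) ^ 3) := by
    have h1 : (((3).factorial : ℝ≥0∞) * min
        (volume (body facetQ facetP ∩ {x : Phase 3 | 0 ≤ x.2 (Fin.last 2)}))
        (volume (body facetQ facetP ∩ {x : Phase 3 | x.2 (Fin.last 2) ≤ 0}))) ≤
        ENNReal.ofReal 6 * (ENNReal.ofReal (5 / 3) *
          ENNReal.ofReal (11 / 10 * (5 / 2 * psi ^ 2))) := by
      refine mul_le_mul' ?_ ((min_le_left _ _).trans volume_upper)
      simp [Nat.factorial]
    refine lt_of_le_of_lt h1 ?_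
    rw [← ENNReal.ofReal_mul (by norm_num), ← ENNReal.ofReal_mul (by norm_num),
      ENNReal.ofReal_lt_ofReal_iff (by norm_num)]
    have := psi_sq
    have := psi_gt
    nlinarith
  calc _ < (ENNReal.ofReal ((11 / 5) ^ 3)) ^ (1 / 3 : ℝ) := ENNReal.rpow_lt_rpow hv (by norm_num)
    _ = ENNReal.ofReal (11 / 5) := by
        rw [ENNReal.ofReal_rpow_of_pos (by norm_num)]
        congr 1
        have := Real.pow_rpow_inv_natCast (show (0 : ℝ) ≤ 11 / 5 by norm_num)
          (show (3 : ℕ) ≠ 0 by norm_num)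
        rw [← this]
        norm_num

end Pool.Agent.Results.MP_4c83b4_gt.Disproof
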